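import Mathlib
import Pool.Agent.X116.Hyp

/-!
# An infinite family of simple sets with pairwise different multiplier sequence sets whose union is
a proper subset of the classical multiplier sequences
-/

open Polynomial Filter Topology

namespace Pool.Agent.Results.MP_5f9057_an.InfiniteFamily

/-- `p` has only real zeros (the zero polynomial counts). -/
def RealRooted (p : ℝ[X]) : Prop := p = 0 ∨ ∀ z : ℂ, aeval z p = 0 → z.im = 0

/-- A simple set of polynomials: `deg q_k = k` for every `k`. -/
def SimpleSet (q : ℕ → ℝ[X]) : Prop := ∀ k, (q k).degree = k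

/-- The set of `q`-multiplier sequences. -/
def MS (q : ℕ → ℝ[X]) : Set (ℕ → ℝ) :=
  {γ | ∀ (n : ℕ) (a : ℕ → ℝ), RealRooted (∑ k ∈ Finset.range (n + 1), C (a k) * q k) →
    RealRooted (∑ k ∈ Finset.range (n + 1), C (a k * γ k) * q k)}

private lemma rr_iff (p : ℝ[X]) : RealRooted p ↔ Pool.Agent.X116.Hyp p := Iff.rfl

/-- expansion in a simple set -/
private lemma expand_exists {q : ℕ → ℝ[X]} (hq : SimpleSet q) (n : ℕ) :
    ∀ p : ℝ[X], p.degree < n → ∃ c : ℕ → ℝ, p = ∑ k ∈ Finset.range n, C (c k) * q k := by
  induction n with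
  | zero =>
    intro p hp
    refine ⟨0, ?_⟩
    simpa using hp
  | succ n ih =>
    intro p hp
    have hqn : (q n).coeff n ≠ 0 := by
      have h1 := hq n
      have h2 : (q n).natDegree = n := natDegree_eq_of_degree_eq_some h1
      have h3 : q n ≠ 0 := by
        intro h
        rw [h, degree_zero] at h1
        exact absurd h1 (by simp)
      have h4 := leadingCoeff_ne_zero.mpr h3
      rwa [leadingCoeff, h2] at h4
    set b : ℝ := p.coeff n / (q n).coeff n with hb
    have hdeg : (p - C b * q n).degree < n := by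
      rw [degree_lt_iff_coeff_zero]
      intro m hm
      rcases hm.eq_or_lt with h | h
      · rw [← h, coeff_sub, coeff_C_mul, hb, div_mul_cancel₀ _ hqn, sub_self]
      · rw [coeff_sub, coeff_C_mul]
        have h1 : p.coeff m = 0 := by
          apply coeff_eq_zero_of_degree_lt
          exact lt_of_lt_of_le hp (by exact_mod_cast h)
        have h2 : (q n).coeff m = 0 := by
          apply coeff_eq_zero_of_degree_lt
          rw [hq n]
          exact_mod_cast h
        rw [h1, h2, mul_zero, sub_zero]
    obtain ⟨c, hc⟩ := ih _ hdeg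
    refine ⟨fun k => if k = n then b else c k, ?_⟩
    rw [Finset.sum_range_succ]
    simp only [if_true]
    have h1 : ∑ k ∈ Finset.range n, C (if k = n then b else c k) * q k
        = ∑ k ∈ Finset.range n, C (c k) * q k := by
      refine Finset.sum_congr rfl fun k hk => ?_
      rw [if_neg (Finset.mem_range.mp hk).ne]
    rw [h1, ← hc]
    ring

/-- the coefficient of `x ^ m` in a combination of `q_0, …, q_m` -/
private lemma coeff_top {q : ℕ → ℝ[X]} (hq : SimpleSet q) (m : ℕ) (c : ℕ → ℝ) :
    (∑ k ∈ Finset.range (m + 1), C (c k) * q k).coeff m = c m * (q m).coeff m := by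
  rw [finsetSum_coeff, Finset.sum_range_succ, coeff_C_mul]
  have : ∑ k ∈ Finset.range m, (C (c k) * q k).coeff m = 0 := by
    refine Finset.sum_eq_zero fun k hk => ?_
    rw [coeff_C_mul, coeff_eq_zero_of_degree_lt, mul_zero]
    rw [hq k]
    exact_mod_cast Finset.mem_range.mp hk
  rw [this, zero_add]

/-- the coefficient of higher powers vanishes -/
private lemma coeff_above {q : ℕ → ℝ[X]} (hq : SimpleSet q) (m i : ℕ) (hi : m < i) (c : ℕ → ℝ) :
    (∑ k ∈ Finset.range (m + 1), C (c k) * q k).coeff i = 0 := by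
  rw [finsetSum_coeff]
  refine Finset.sum_eq_zero fun k hk => ?_
  rw [coeff_C_mul, coeff_eq_zero_of_degree_lt, mul_zero]
  rw [hq k]
  have := Finset.mem_range.mp hk
  exact_mod_cast (by omega : k < i)

/-- Scaling the variable preserves real-rootedness. -/
private lemma scale {p : ℝ[X]} (hp : RealRooted p) {r : ℝ} (hr : r ≠ 0) :
    RealRooted (p.comp (C r * X)) := by
  rcases hp with rfl | h
  · left; simp
  · right
    intro z hz
    rw [aeval_comp] at hz
    have h1 := h _ hz
    simp only [map_mul, aeval_C, aeval_X] at h1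
    have h2 : ((algebraMap ℝ ℂ) r * z).im = r * z.im := by
      simp
    rw [h2] at h1
    rcases mul_eq_zero.mp h1 with h3 | h3
    · exact absurd h3 hr
    · exact h3

/-- Every `q`-multiplier sequence of a simple set is a classical multiplier sequence. -/
theorem MS_subset {q : ℕ → ℝ[X]} (hq : SimpleSet q) : MS q ⊆ MS (fun k => X ^ k) := by
  intro γ hγ n a hf
  -- expansions of the monomials
  have hX : ∀ k, ∃ c : ℕ → ℝ, (X : ℝ[X]) ^ k = ∑ j ∈ Finset.range (k + 1), C (c j) * q j := by
    intro k
    refine expand_exists hq (k + 1) (X ^ k) ?_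
    rw [degree_X_pow]
    exact_mod_cast Nat.lt_succ_self k
  choose c hc using hX
  set t : ℕ → ℝ[X] := fun k => ∑ j ∈ Finset.range (k + 1), C (c k j * γ j) * q j with ht
  have htop : ∀ k, (t k).coeff k = γ k := by
    intro k
    have h1 := coeff_top hq k (c k)
    rw [← hc k, coeff_X_pow_self] at h1
    have h2 := coeff_top hq k (fun j => c k j * γ j)
    rw [ht]
    simp only
    rw [h2]
    linear_combination -(γ k) * h1
  have habove : ∀ k i, k < i → (t k).coeff i = 0 := fun k i hi =>
    coeff_above hq k i hi _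
  -- the transformed polynomial
  have key : ∀ R : ℝ, 0 < R → RealRooted
      (∑ k ∈ Finset.range (n + 1), C (a k * (R⁻¹) ^ k) * (t k).comp (C R * X)) := by
    intro R hR
    have h1 : RealRooted ((∑ k ∈ Finset.range (n + 1), C (a k) * X ^ k).comp (C R⁻¹ * X)) :=
      scale hf (inv_ne_zero hR.ne')
    -- the extended coefficients
    set c' : ℕ → ℕ → ℝ := fun k j => if j ≤ k then c k j else 0 with hc'
    have hsum : ∀ (k : ℕ), k ≤ n → ∀ g : ℕ → ℝ, ∑ j ∈ Finset.range (k + 1), C (c k j * g j) * q j
        = ∑ j ∈ Finset.range (n + 1), C (c' k j * g j) * q j := by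
      intro k hk g
      have h2 : ∑ j ∈ Finset.range (k + 1), C (c k j * g j) * q j
          = ∑ j ∈ Finset.range (k + 1), C (c' k j * g j) * q j := by
        refine Finset.sum_congr rfl fun j hj => ?_
        simp only [hc']
        rw [if_pos (Nat.lt_succ_iff.mp (Finset.mem_range.mp hj))]
      rw [h2]
      apply Finset.sum_subset
      · intro j hj
        simp only [Finset.mem_range] at *
        omega
      · intro j _ hj
        simp only [Finset.mem_range, not_lt] at hj
        simp only [hc']
        rw [if_neg (by omega)]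
        simp
    have h2 : (∑ k ∈ Finset.range (n + 1), C (a k) * X ^ k).comp (C R⁻¹ * X)
        = ∑ j ∈ Finset.range (n + 1),
          C (∑ k ∈ Finset.range (n + 1), a k * (R⁻¹) ^ k * c' k j) * q j := by
      have h3 : (∑ k ∈ Finset.range (n + 1), C (a k) * X ^ k).comp (C R⁻¹ * X)
          = ∑ k ∈ Finset.range (n + 1), C (a k * (R⁻¹) ^ k) * X ^ k := by
        rw [Polynomial.sum_comp]
        refine Finset.sum_congr rfl fun k _ => ?_
        rw [mul_comp, C_comp, pow_comp, X_comp, mul_pow, C_mul, C_pow]
        ring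
      rw [h3]
      simp only [map_sum, Finset.sum_mul]
      rw [Finset.sum_comm]
      refine Finset.sum_congr rfl fun k hk => ?_
      have h4 := hsum k (Nat.lt_succ_iff.mp (Finset.mem_range.mp hk)) (fun _ => 1)
      simp only [mul_one] at h4
      rw [hc k, h4, Finset.mul_sum]
      refine Finset.sum_congr rfl fun j _ => ?_
      rw [C_mul, C_mul, C_mul]
      ring
    rw [h2] at h1
    have h3 := hγ n _ h1
    have h4 : ∑ j ∈ Finset.range (n + 1),
          C ((∑ k ∈ Finset.range (n + 1), a k * (R⁻¹) ^ k * c' k j) * γ j) * q j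
        = ∑ k ∈ Finset.range (n + 1), C (a k * (R⁻¹) ^ k) * t k := by
      simp only [Finset.sum_mul, map_sum]
      rw [Finset.sum_comm]
      refine Finset.sum_congr rfl fun k hk => ?_
      rw [ht]
      simp only
      rw [hsum k (Nat.lt_succ_iff.mp (Finset.mem_range.mp hk)) γ, Finset.mul_sum]
      refine Finset.sum_congr rfl fun j _ => ?_
      simp only [C_mul]
      ring
    rw [h4] at h3
    have h5 := scale h3 hR.ne'
    rw [Polynomial.sum_comp] at h5
    simp only [mul_comp, C_comp] at h5
    exact h5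
  -- pass to the limit
  have hlim := Pool.Agent.X116.Hyp.limit (n := n)
    (P := fun i : ℕ => ∑ k ∈ Finset.range (n + 1),
      C (a k * (((i : ℝ) + 1)⁻¹) ^ k) * (t k).comp (C ((i : ℝ) + 1) * X))
    (p := ∑ k ∈ Finset.range (n + 1), C (a k * γ k) * X ^ k) ?_ ?_
    (fun i => key _ (by positivity))
  · exact hlim
  · intro i
    refine natDegree_sum_le_of_forall_le _ _ fun k hk => ?_
    have hk' : k ≤ n := Nat.lt_succ_iff.mp (Finset.mem_range.mp hk)
    refine (natDegree_C_mul_le _ _).trans ?_
    have h1 : (t k).natDegree ≤ k := by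
      rw [natDegree_le_iff_coeff_eq_zero]
      exact habove k
    have h2 : (C ((i : ℝ) + 1) * X : ℝ[X]).natDegree ≤ 1 :=
      (natDegree_C_mul_le _ _).trans natDegree_X_le
    calc ((t k).comp (C ((i : ℝ) + 1) * X)).natDegree
        ≤ (t k).natDegree * (C ((i : ℝ) + 1) * X : ℝ[X]).natDegree := natDegree_comp_le
      _ ≤ k * 1 := Nat.mul_le_mul h1 h2
      _ ≤ n := by omega
  · intro m
    simp only [finsetSum_coeff, coeff_C_mul, comp_C_mul_X_coeff, coeff_X_pow]
    refine tendsto_finsetSum _ fun k _ => ?_
    have hinv : Tendsto (fun i : ℕ => ((i : ℝ) + 1)⁻¹) atTop (𝓝 0) :=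
      tendsto_inv_atTop_zero.comp (tendsto_atTop_add_const_right _ _ tendsto_natCast_atTop_atTop)
    rcases lt_trichotomy m k with h | h | h
    · -- `m < k`: tends to zero
      rw [if_neg h.ne, mul_zero]
      have h1 : ∀ i : ℕ, a k * (((i : ℝ) + 1)⁻¹) ^ k * ((t k).coeff m * ((i : ℝ) + 1) ^ m)
          = a k * (t k).coeff m * (((i : ℝ) + 1)⁻¹) ^ (k - m) := by
        intro i
        have h2 : ((i : ℝ) + 1) ≠ 0 := by positivity
        have h3 : (((i : ℝ) + 1)⁻¹) ^ k = (((i : ℝ) + 1)⁻¹) ^ (k - m) * (((i : ℝ) + 1)⁻¹) ^ m := by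
          rw [← pow_add]; congr 1; omega
        have h4 : (((i : ℝ) + 1)⁻¹) ^ m * ((i : ℝ) + 1) ^ m = 1 := by
          rw [← mul_pow, inv_mul_cancel₀ h2, one_pow]
        rw [h3]
        linear_combination (a k * (t k).coeff m * (((i : ℝ) + 1)⁻¹) ^ (k - m)) * h4
      simp only [h1]
      have h5 := (hinv.pow (k - m)).const_mul (a k * (t k).coeff m)
      rw [zero_pow (by omega), mul_zero] at h5
      exact h5
    · subst h
      rw [if_pos rfl, mul_one]
      have h1 : ∀ i : ℕ, a m * (((i : ℝ) + 1)⁻¹) ^ m * ((t m).coeff m * ((i : ℝ) + 1) ^ m)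
          = a m * γ m := by
        intro i
        have h2 : ((i : ℝ) + 1) ≠ 0 := by positivity
        have h4 : (((i : ℝ) + 1)⁻¹) ^ m * ((i : ℝ) + 1) ^ m = 1 := by
          rw [← mul_pow, inv_mul_cancel₀ h2, one_pow]
        rw [htop m]
        linear_combination (a m * γ m) * h4
      simp only [h1]
      exact tendsto_const_nhds
    · rw [if_neg h.ne', mul_zero]
      simp only [habove k m h, zero_mul, mul_zero]
      exact tendsto_const_nhds

/-- the indicator sequence of `m` is a multiplier sequence iff `q_m` is real-rooted -/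
private lemma single_mem {q : ℕ → ℝ[X]} {m : ℕ} (h : RealRooted (q m)) :
    (fun k => if k = m then (1 : ℝ) else 0) ∈ MS q := by
  intro n a _
  by_cases hm : m ∈ Finset.range (n + 1)
  · have h1 : ∑ k ∈ Finset.range (n + 1), C (a k * (if k = m then (1 : ℝ) else 0)) * q k
        = C (a m) * q m := by
      rw [Finset.sum_eq_single_of_mem m hm]
      · simp
      · intro k _ hk
        simp [hk]
    rw [h1]
    by_cases ha : a m = 0
    · left; simp [ha]
    rcases h with h | h
    · left; simp [h]
    · right
      intro z hz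
      rw [map_mul, aeval_C] at hz
      rcases mul_eq_zero.mp hz with h2 | h2
      · exact absurd h2 (by simpa using ha)
      · exact h z h2
  · left
    refine Finset.sum_eq_zero fun k hk => ?_
    have : k ≠ m := fun h => hm (h ▸ hk)
    simp [this]

private lemma single_notMem {q : ℕ → ℝ[X]} (hq : SimpleSet q) {m : ℕ} (h : ¬ RealRooted (q m)) :
    (fun k => if k = m then (1 : ℝ) else 0) ∉ MS q := by
  intro hmem
  obtain ⟨c, hc⟩ := expand_exists hq (m + 1) (X ^ m) (by
    rw [degree_X_pow]
    exact_mod_cast Nat.lt_succ_self m)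
  have h1 : RealRooted (∑ k ∈ Finset.range (m + 1), C (c k) * q k) := by
    rw [← hc]
    right
    intro z hz
    rw [map_pow, aeval_X] at hz
    rw [eq_zero_of_pow_eq_zero hz]
    simp
  have h2 := hmem m c h1
  have h3 : ∑ k ∈ Finset.range (m + 1), C (c k * (if k = m then (1 : ℝ) else 0)) * q k
      = C (c m) * q m := by
    rw [Finset.sum_eq_single_of_mem m (Finset.mem_range.mpr (Nat.lt_succ_self m))]
    · simp
    · intro k _ hk
      simp [hk]
  rw [h3] at h2
  have hcm : c m ≠ 0 := by
    intro h0
    have h4 := coeff_top hq m c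
    rw [← hc, coeff_X_pow_self, h0, zero_mul] at h4
    exact one_ne_zero h4
  apply h
  rcases h2 with h5 | h5
  · left
    rcases mul_eq_zero.mp h5 with h6 | h6
    · exact absurd (C_eq_zero.mp h6) hcm
    · exact h6
  · right
    intro z hz
    apply h5 z
    rw [map_mul, hz, mul_zero]

/-- The collection: `q_2 = x ^ 2 + 1`, `q_{j+3} = x ^ (j + 1) (x ^ 2 + 1)`, all other `q_k = x ^ k`. -/
noncomputable def Qfam (j k : ℕ) : ℝ[X] :=
  if k = 2 then X ^ 2 + 1 else if k = j + 3 then X ^ (j + 1) * (X ^ 2 + 1) else X ^ k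

private lemma not_rr_aux (e : ℕ) : ¬ RealRooted (X ^ e * (X ^ 2 + 1) : ℝ[X]) := by
  have hdeg : (X ^ 2 + 1 : ℝ[X]) ≠ 0 := by
    have := X_pow_add_C_ne_zero (R := ℝ) (n := 2) (by norm_num) 1
    simpa using this
  rintro (h | h)
  · rcases mul_eq_zero.mp h with h | h
    · exact pow_ne_zero _ X_ne_zero h
    · exact hdeg h
  · have := h Complex.I (by simp)
    simp at this

/-- There is an infinite collection `Q_0, Q_1, …` of simple sets of polynomials whose multiplier
sequence sets are pairwise different, and whose union is a proper subset of the set of classical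
multiplier sequences. -/
theorem result : ∃ Q : ℕ → ℕ → ℝ[X], (∀ j, SimpleSet (Q j)) ∧
    (∀ i j, j ≠ i → (symmDiff (MS (Q j)) (MS (Q i))).Nonempty) ∧
    (⋃ j, MS (Q j)) ⊂ MS (fun k => X ^ k) := by
  have h21 : (X ^ 2 + 1 : ℝ[X]).degree = 2 := by
    have := degree_X_pow_add_C (R := ℝ) (n := 2) (by norm_num) 1
    simpa using this
  have hsimple : ∀ j, SimpleSet (Qfam j) := by
    intro j k
    unfold Qfam
    split_ifs with h1 h2
    · rw [h1]; exact h21
    · rw [h2, degree_mul, degree_X_pow, h21]
      push_cast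
      norm_cast
    · exact degree_X_pow k
  have hXrr : ∀ k, RealRooted (X ^ k : ℝ[X]) := by
    intro k
    right
    intro z hz
    rw [map_pow, aeval_X] at hz
    rw [eq_zero_of_pow_eq_zero hz]
    simp
  refine ⟨Qfam, hsimple, ?_, ?_⟩
  · intro i j hij
    refine ⟨fun k => if k = i + 3 then (1 : ℝ) else 0, ?_⟩
    left
    constructor
    · apply single_mem
      have : Qfam j (i + 3) = X ^ (i + 3) := by
        unfold Qfam
        rw [if_neg (by omega), if_neg (by omega)]
      rw [this]
      exact hXrr _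
    · apply single_notMem (hsimple i)
      have : Qfam i (i + 3) = X ^ (i + 1) * (X ^ 2 + 1) := by
        unfold Qfam
        rw [if_neg (by omega), if_pos rfl]
      rw [this]
      exact not_rr_aux _
  · rw [Set.ssubset_iff_of_subset (Set.iUnion_subset fun j => MS_subset (hsimple j))]
    refine ⟨fun k => if k = 2 then (1 : ℝ) else 0, single_mem (hXrr 2), ?_⟩
    intro hmem
    obtain ⟨j, hj⟩ := Set.mem_iUnion.mp hmem
    refine single_notMem (hsimple j) ?_ hj
    have : Qfam j 2 = X ^ 0 * (X ^ 2 + 1) := by
      unfold Qfam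
      rw [if_pos rfl, pow_zero, one_mul]
    rw [this]
    exact not_rr_aux 0

end Pool.Agent.Results.MP_5f9057_an.InfiniteFamily
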